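import Mathlib
import Pool.Agent.Work.MP_8a50a7_gt.Defs
import Pool.Agent.Work.MP_8a50a7_gt.Main

namespace Pool.Agent.Results.MP_8a50a7_gt.UpperBound

open Pool.Agent.Work.MP_8a50a7_gt

/-- Every centrally symmetric convex body in `ℝ³` has vertex index at most `13.27`. -/
theorem result (K : Set (EuclideanSpace ℝ (Fin 3))) (hK : IsCompact K) (hc : Convex ℝ K)
    (hi : (interior K).Nonempty) (hs : K = -K) : vein K ≤ 13.27 :=
  vein_le hK hc hi hs

end Pool.Agent.Results.MP_8a50a7_gt.UpperBound
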